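import Pool.Agent.H43.PS.Targets

/-! RAB: the inequality (1.2) for two positive semidefinite matrices. -/

namespace H98.PSD

open Matrix Finset H43.PS

/-- The trace of a product of psd matrices is nonnegative. -/
lemma tr_mul_nonneg {κ : Type} [Fintype κ] [DecidableEq κ] {P Q : Matrix κ κ ℝ}
    (hP : P.PosSemidef) (hQ : Q.PosSemidef) : 0 ≤ (P * Q).trace := by
  obtain ⟨m, v, hv⟩ := Matrix.posSemidef_iff_eq_sum_vecMulVec.mp hP
  rw [hv, Matrix.sum_mul, Matrix.trace_sum]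
  refine Finset.sum_nonneg fun i _ => ?_
  have h1 : (vecMulVec (v i) (star (v i)) * Q).trace = star (v i) ⬝ᵥ (Q *ᵥ v i) := by
    rw [Matrix.trace_mul_comm, Matrix.mul_vecMulVec, Matrix.trace_vecMulVec, dotProduct_comm]
  rw [h1]
  exact hQ.dotProduct_mulVec_nonneg (v i)

/-- The inverse is antitone. -/
lemma inv_sub_psd {κ : Type} [Fintype κ] [DecidableEq κ] {M G : Matrix κ κ ℝ}
    (hM : M.PosDef) (hG : G.PosSemidef) : (M⁻¹ - (M + G)⁻¹).PosSemidef := by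
  have hN : (M + G).PosDef := hM.add_posSemidef hG
  have hMu : IsUnit M.det := (Matrix.isUnit_iff_isUnit_det M).mp hM.isUnit
  have hNu : IsUnit (M + G).det := (Matrix.isUnit_iff_isUnit_det (M + G)).mp hN.isUnit
  have hK : (G + G * M⁻¹ * G).PosSemidef := by
    have h1 : (G * M⁻¹ * Gᴴ).PosSemidef := hM.inv.posSemidef.mul_mul_conjTranspose_same G
    rw [hG.isHermitian.eq] at h1
    exact hG.add h1
  have h2 : ((M + G)⁻¹ * (G + G * M⁻¹ * G) * ((M + G)⁻¹)ᴴ).PosSemidef :=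
    hK.mul_mul_conjTranspose_same _
  have h3 : ((M + G)⁻¹)ᴴ = (M + G)⁻¹ := hN.inv.isHermitian.eq
  rw [h3] at h2
  have h4 : G + G * M⁻¹ * G = (M + G) * M⁻¹ * (M + G) - (M + G) := by
    have e1 : M * M⁻¹ = 1 := Matrix.mul_nonsing_inv M hMu
    have e2 : M⁻¹ * M = 1 := Matrix.nonsing_inv_mul M hMu
    rw [Matrix.add_mul, e1, Matrix.add_mul, Matrix.one_mul, Matrix.mul_add, Matrix.mul_assoc G M⁻¹ M,
      e2, Matrix.mul_one]
    abel
  have h5 : (M + G)⁻¹ * (G + G * M⁻¹ * G) * (M + G)⁻¹ = M⁻¹ - (M + G)⁻¹ := by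
    have e1 : (M + G) * (M + G)⁻¹ = 1 := Matrix.mul_nonsing_inv _ hNu
    have e2 : (M + G)⁻¹ * (M + G) = 1 := Matrix.nonsing_inv_mul _ hNu
    rw [h4, Matrix.mul_sub, Matrix.sub_mul, e2, Matrix.one_mul]
    congr 1
    calc (M + G)⁻¹ * ((M + G) * M⁻¹ * (M + G)) * (M + G)⁻¹
        = ((M + G)⁻¹ * (M + G)) * M⁻¹ * ((M + G) * (M + G)⁻¹) := by
          simp only [Matrix.mul_assoc]
      _ = M⁻¹ := by rw [e1, e2, Matrix.one_mul, Matrix.mul_one]
  rwa [h5] at h2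

theorem RAB (hRES : T_RES) (hPM : T_PM) : T_RAB := by
  intro κ _ _ A B hA hB
  obtain ⟨F, G, hF, hG, hE, hsum⟩ := hPM κ (A - B) (hA.isHermitian.sub hB.isHermitian)
  have h1B : (1 + B).PosDef := PosDef.one.add_posSemidef hB
  have h1A : (1 + A).PosDef := PosDef.one.add_posSemidef hA
  have hX := inv_sub_psd h1B hF
  have hY := inv_sub_psd h1A hG
  have hC : 1 + B + F = 1 + A + G := by
    have : A = B + (F - G) := by rw [← hE]; abel
    rw [this]; abel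
  have r1 := hRES κ B F hB hF
  have r2 := hRES κ A G hA hG
  have hXY : (1 + B)⁻¹ - (1 + A)⁻¹ =
      ((1 + B)⁻¹ - (1 + B + F)⁻¹) - ((1 + A)⁻¹ - (1 + A + G)⁻¹) := by
    rw [hC]; abel
  have n1 := tr_mul_nonneg hF hY
  have n2 := tr_mul_nonneg hG hX
  have hexp : ((A - B) * ((1 + B)⁻¹ - (1 + A)⁻¹)).trace =
      (F * ((1 + B)⁻¹ - (1 + B + F)⁻¹)).trace - (F * ((1 + A)⁻¹ - (1 + A + G)⁻¹)).trace
      - (G * ((1 + B)⁻¹ - (1 + B + F)⁻¹)).trace + (G * ((1 + A)⁻¹ - (1 + A + G)⁻¹)).trace := by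
    rw [hXY, hE]
    generalize ((1 + B)⁻¹ - (1 + B + F)⁻¹) = X
    generalize ((1 + A)⁻¹ - (1 + A + G)⁻¹) = Y
    rw [Matrix.sub_mul, Matrix.mul_sub, Matrix.mul_sub, Matrix.trace_sub, Matrix.trace_sub,
      Matrix.trace_sub]
    ring
  rw [hexp, ← hsum]
  linarith

end H98.PSD
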