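import Pool.Agent.H43.PS.Targets

/-! CVX: convexity of `Tr x^p`. -/

namespace H98.PSD

open Matrix Finset H43.PS

theorem CVX (hSQR : T_SQR) (hBRP : T_BRP) (hSCL : T_SCL) (hNNG : T_NNG) : T_CVX := by
  intro κ Θ _ _ _ x p hp1 hp2 hc hx
  have hcR : (0 : ℝ) < (Fintype.card Θ : ℝ) := by exact_mod_cast hc
  have hcne : (Fintype.card Θ : ℝ) ≠ 0 := hcR.ne'
  have hsumpsd : (∑ θ, x θ).PosSemidef := Matrix.posSemidef_sum univ (fun θ _ => hx θ)
  have hvpsd : (avm x).PosSemidef := by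
    unfold avm
    exact hsumpsd.smul (inv_nonneg.mpr hcR.le)
  obtain ⟨B, hB, hBB⟩ := hSQR κ (avm x) hvpsd
  have key : ∀ θ, tp p (avm x) + p * (fm (fun t => t ^ (p - 1)) (avm x) * (x θ - avm x)).trace ≤
      tp p (x θ) := by
    intro θ
    obtain ⟨A, hA, hAA⟩ := hSQR κ (x θ) (hx θ)
    have h1 := hBRP κ (x θ) (avm x) A B p hp1 hp2 hA hB hAA hBB
    have h2 : 0 ≤ ta (2 * p) (A - B) :=
      (hNNG κ (A - B)).1 _ (fun t => Real.rpow_nonneg (abs_nonneg t) _)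
    have h3 : 0 ≤ (p - 1) * ta (2 * p) (A - B) := mul_nonneg (by linarith) h2
    linarith
  have hsum : ∑ θ, x θ = (Fintype.card Θ : ℝ) • avm x := by
    unfold avm
    rw [smul_smul, mul_inv_cancel₀ hcne, one_smul]
  have hlin : ∑ θ, (fm (fun t => t ^ (p - 1)) (avm x) * (x θ - avm x)).trace = 0 := by
    rw [← Matrix.trace_sum, ← Matrix.mul_sum, Finset.sum_sub_distrib, hsum, Finset.sum_const,
      Finset.card_univ, ← Nat.cast_smul_eq_nsmul ℝ, sub_self, Matrix.mul_zero, Matrix.trace_zero]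
  have htot : (Fintype.card Θ : ℝ) * tp p (avm x) ≤ ∑ θ, tp p (x θ) := by
    have h := Finset.sum_le_sum (fun θ (_ : θ ∈ (univ : Finset Θ)) => key θ)
    rw [Finset.sum_add_distrib, ← Finset.mul_sum, hlin, mul_zero, add_zero, Finset.sum_const,
      Finset.card_univ, nsmul_eq_mul] at h
    exact h
  refine ⟨?_, ?_⟩
  · unfold av
    rw [le_inv_mul_iff₀ hcR]
    exact htot
  · rw [hsum, (hSCL κ p (by linarith)).1 _ _ hcR.le hvpsd]
    have h4 : (Fintype.card Θ : ℝ) ^ p = (Fintype.card Θ : ℝ) ^ (p - 1) * (Fintype.card Θ : ℝ) := by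
      rw [Real.rpow_sub_one hcne]
      field_simp
    rw [h4, mul_assoc]
    exact mul_le_mul_of_nonneg_left htot (Real.rpow_nonneg hcR.le _)

end H98.PSD
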